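import Mathlib

/-! The Killing form of a Lie algebra of matrices without abelian ideals is nondegenerate. -/

set_option autoImplicit false

namespace Pool.Agent.E8helper41.TW

open Matrix Module

attribute [local instance 100] LieRing.ofAssociativeRing

variable {n : Type} [Fintype n] [DecidableEq n]

/-- a Lie algebra of matrices -/
def LU (U : Submodule ℂ (Matrix n n ℂ)) (hU : ∀ u ∈ U, ∀ v ∈ U, u * v - v * u ∈ U) :
    LieSubalgebra ℂ (Matrix n n ℂ) :=
  { U with
    lie_mem' := fun {x y} hx hy => by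
      rw [Ring.lie_def]
      exact hU _ hx _ hy }

theorem triv_rad (U : Submodule ℂ (Matrix n n ℂ)) (hU : ∀ u ∈ U, ∀ v ∈ U, u * v - v * u ∈ U)
    (noab : ∀ J : Submodule ℂ (Matrix n n ℂ), J ≤ U → (∀ u ∈ U, ∀ j ∈ J, u * j - j * u ∈ J) →
    (∀ i ∈ J, ∀ j ∈ J, i * j = j * i) → J = ⊥) : LieAlgebra.HasTrivialRadical ℂ (LU U hU) := by
  rw [LieAlgebra.hasTrivialRadical_iff_no_abelian_ideals]
  intro I hI
  have h1 := noab (I.toSubmodule.map (LU U hU).toSubmodule.subtype) (by
      rintro _ ⟨y, _, rfl⟩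
      exact y.2) (by
      rintro u hu _ ⟨y, hy, rfl⟩
      refine ⟨⁅(⟨u, hu⟩ : LU U hU), y⁆, lie_mem_right ℂ (LU U hU) I _ _ hy, ?_⟩
      rfl) (by
      rintro _ ⟨y, hy, rfl⟩ _ ⟨z, hz, rfl⟩
      have h2 : ⁅(⟨y, hy⟩ : I), (⟨z, hz⟩ : I)⁆ = 0 := hI.trivial _ _
      have h3 : (y : Matrix n n ℂ) * z - z * y = 0 := by
        have h4 := congrArg (fun t : I => ((t : LU U hU) : Matrix n n ℂ)) h2
        exact h4
      exact sub_eq_zero.1 h3)
  rw [eq_bot_iff]
  intro y hy
  have h2 : ((LU U hU).toSubmodule.subtype y) ∈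
      I.toSubmodule.map (LU U hU).toSubmodule.subtype := ⟨y, hy, rfl⟩
  rw [h1, Submodule.mem_bot] at h2
  rw [LieSubmodule.mem_bot]
  exact Subtype.ext h2

theorem kil1 (d : ℕ) (x : Fin d → Matrix n n ℂ) (hx : LinearIndependent ℂ x)
    (hU : ∀ u ∈ Submodule.span ℂ (Set.range x), ∀ v ∈ Submodule.span ℂ (Set.range x),
      u * v - v * u ∈ Submodule.span ℂ (Set.range x))
    (noab : ∀ J : Submodule ℂ (Matrix n n ℂ), J ≤ Submodule.span ℂ (Set.range x) →
      (∀ u ∈ Submodule.span ℂ (Set.range x), ∀ j ∈ J, u * j - j * u ∈ J) →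
      (∀ i ∈ J, ∀ j ∈ J, i * j = j * i) → J = ⊥)
    (c : Fin d → Fin d → Fin d → ℂ) (hc : ∀ i j, x i * x j - x j * x i = ∑ l, c i j l • x l) :
    (Matrix.of fun i j => ∑ l, ∑ m, c i l m * c j m l).det ≠ 0 := by
  have := triv_rad _ hU noab
  set L := LU (Submodule.span ℂ (Set.range x)) hU with hL
  let b : Basis (Fin d) ℂ L := Basis.span hx
  have hb : ∀ i, ((b i : L) : Matrix n n ℂ) = x i := fun i =>
    congrArg Subtype.val (Basis.span_apply hx i)
  have : FiniteDimensional ℂ L := Module.Finite.of_basis b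
  have hn := LieAlgebra.IsKilling.killingForm_nondegenerate ℂ L
  have hM : LinearMap.BilinForm.toMatrix b (killingForm ℂ L) =
      Matrix.of fun i j => ∑ l, ∑ m, c i l m * c j m l := by
    ext i j
    rw [LinearMap.BilinForm.toMatrix_apply, LieModule.traceForm_apply_apply,
      LinearMap.trace_eq_matrix_trace ℂ b, LinearMap.toMatrix_comp b b b, Matrix.trace]
    have key : ∀ i m l, LinearMap.toMatrix b b (LieModule.toEnd ℂ L L (b i)) l m = c i m l := by
      intro i m l
      rw [LinearMap.toMatrix_apply]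
      have h1 : (LieModule.toEnd ℂ L L (b i)) (b m) = ∑ l, c i m l • b l := by
        apply Subtype.ext
        have h2 : (((LieModule.toEnd ℂ L L (b i)) (b m) : L) : Matrix n n ℂ) =
            x i * x m - x m * x i := by
          rw [← hb, ← hb]
          rfl
        rw [h2, hc]
        rw [AddSubmonoidClass.coe_finset_sum]
        refine Finset.sum_congr rfl fun l _ => ?_
        rw [← hb]
        rfl
      rw [h1, map_sum, Finset.sum_apply']
      simp [Finsupp.single_apply]
    simp only [Matrix.diag_apply, Matrix.mul_apply, key, Matrix.of_apply]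
    exact Finset.sum_comm
  rw [← hM]
  exact (LinearMap.BilinForm.nondegenerate_iff_det_ne_zero b).1 hn

end Pool.Agent.E8helper41.TW
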