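import Mathlib

/-! Limits of conjugates of a semisimple Lie algebra of matrices: the algebra of the structure
constants. -/

set_option autoImplicit false

namespace Pool.Agent.E8helper41.TW

open Matrix Module Filter Topology

variable {n : Type} [Fintype n] [DecidableEq n] {d : ℕ}

/-- the matrix of the trace form -/
def Gm (x : Fin d → Matrix n n ℂ) : Matrix (Fin d) (Fin d) ℂ :=
  Matrix.of fun i j => (x i * x j).trace

/-- the matrix of the Killing form -/
def Km (c : Fin d → Fin d → Fin d → ℂ) : Matrix (Fin d) (Fin d) ℂ :=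
  Matrix.of fun i j => ∑ l, ∑ m, c i l m * c j m l

/-- change of the basis -/
def cb (a : Matrix (Fin d) (Fin d) ℂ) (X : Fin d → Matrix n n ℂ) (i : Fin d) : Matrix n n ℂ :=
  ∑ j, a i j • X j

/-- the structure constants in the new basis -/
noncomputable def Cn (a : Matrix (Fin d) (Fin d) ℂ) (c : Fin d → Fin d → Fin d → ℂ)
    (i : Fin d) : Matrix (Fin d) (Fin d) ℂ :=
  ∑ p, a i p • (a * Matrix.of (c p) * a⁻¹)

lemma Gm_cb (a : Matrix (Fin d) (Fin d) ℂ) (X : Fin d → Matrix n n ℂ) :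
    Gm (cb a X) = a * Gm X * aᵀ := by
  ext i j
  simp only [Gm, cb, Matrix.of_apply, Matrix.mul_apply, Matrix.transpose_apply, Finset.sum_mul,
    Finset.mul_sum, Matrix.trace_sum, Matrix.smul_mul, Matrix.mul_smul, Matrix.trace_smul,
    smul_eq_mul]
  refine Finset.sum_congr rfl fun q _ => Finset.sum_congr rfl fun p _ => ?_
  ring

lemma Gm_conj {g : Matrix n n ℂ} (hg : IsUnit g.det) (X : Fin d → Matrix n n ℂ) :
    Gm (fun i => g * X i * g⁻¹) = Gm X := by
  ext i j
  change (g * X i * g⁻¹ * (g * X j * g⁻¹)).trace = (X i * X j).trace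
  have h : g * X i * g⁻¹ * (g * X j * g⁻¹) = g * (X i * X j) * g⁻¹ := by
    rw [show g * X i * g⁻¹ * (g * X j * g⁻¹) = g * X i * (g⁻¹ * g) * (X j * g⁻¹) by
      simp only [Matrix.mul_assoc], Matrix.nonsing_inv_mul _ hg, Matrix.mul_one]
    simp only [Matrix.mul_assoc]
  rw [h, Matrix.trace_mul_comm, ← Matrix.mul_assoc, Matrix.nonsing_inv_mul _ hg, Matrix.one_mul]

lemma conj_lie {g : Matrix n n ℂ} (hg : IsUnit g.det) (X : Fin d → Matrix n n ℂ)
    (c : Fin d → Fin d → Fin d → ℂ) (h : ∀ i j, X i * X j - X j * X i = ∑ l, c i j l • X l)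
    (i j : Fin d) : g * X i * g⁻¹ * (g * X j * g⁻¹) - g * X j * g⁻¹ * (g * X i * g⁻¹) =
      ∑ l, c i j l • (g * X l * g⁻¹) := by
  have h1 : ∀ i j, g * X i * g⁻¹ * (g * X j * g⁻¹) = g * (X i * X j) * g⁻¹ := by
    intro i j
    rw [show g * X i * g⁻¹ * (g * X j * g⁻¹) = g * X i * (g⁻¹ * g) * (X j * g⁻¹) by
      simp only [Matrix.mul_assoc], Matrix.nonsing_inv_mul _ hg, Matrix.mul_one]
    simp only [Matrix.mul_assoc]
  rw [h1, h1, ← Matrix.sub_mul, ← Matrix.mul_sub, h, Finset.mul_sum, Finset.sum_mul]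
  refine Finset.sum_congr rfl fun l _ => ?_
  rw [Matrix.mul_smul, Matrix.smul_mul]

lemma cb_cb (a b : Matrix (Fin d) (Fin d) ℂ) (X : Fin d → Matrix n n ℂ) :
    cb a (cb b X) = cb (a * b) X := by
  funext i
  simp only [cb, Matrix.mul_apply, Finset.smul_sum, Finset.sum_smul, smul_smul]
  exact Finset.sum_comm

lemma cb_one (X : Fin d → Matrix n n ℂ) : cb (1 : Matrix (Fin d) (Fin d) ℂ) X = X := by
  funext i
  simp [cb, Matrix.one_apply]

lemma cb_lie {a : Matrix (Fin d) (Fin d) ℂ} (ha : IsUnit a.det) (X : Fin d → Matrix n n ℂ)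
    (c : Fin d → Fin d → Fin d → ℂ) (h : ∀ i j, X i * X j - X j * X i = ∑ l, c i j l • X l)
    (i j : Fin d) : cb a X i * cb a X j - cb a X j * cb a X i =
      ∑ l, Cn a c i j l • cb a X l := by
  have h1 : ∀ p, X p * cb a X j - cb a X j * X p =
      ∑ l, (a * Matrix.of (c p) * a⁻¹) j l • cb a X l := by
    intro p
    have h2 : ∑ l, (a * Matrix.of (c p) * a⁻¹) j l • cb a X l =
        cb (a * Matrix.of (c p) * a⁻¹) (cb a X) j := rfl
    rw [h2, cb_cb, Matrix.mul_assoc, Matrix.nonsing_inv_mul _ ha, Matrix.mul_one, ← cb_cb]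
    have h3 : cb (Matrix.of (c p)) X = fun q => X p * X q - X q * X p := by
      funext q
      rw [h]
      rfl
    rw [h3]
    simp only [cb, Finset.mul_sum, Finset.sum_mul, Matrix.mul_smul, Matrix.smul_mul,
      smul_sub, Finset.sum_sub_distrib]
  have h4 : cb a X i * cb a X j - cb a X j * cb a X i =
      ∑ p, a i p • (X p * cb a X j - cb a X j * X p) := by
    have e1 : cb a X i * cb a X j = ∑ p, a i p • (X p * cb a X j) := by
      change (∑ p, a i p • X p) * cb a X j = _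
      rw [Finset.sum_mul]
      exact Finset.sum_congr rfl fun p _ => Matrix.smul_mul _ _ _
    have e2 : cb a X j * cb a X i = ∑ p, a i p • (cb a X j * X p) := by
      change cb a X j * (∑ p, a i p • X p) = _
      rw [Finset.mul_sum]
      exact Finset.sum_congr rfl fun p _ => Matrix.mul_smul _ _ _
    rw [e1, e2, ← Finset.sum_sub_distrib]
    exact Finset.sum_congr rfl fun p _ => (smul_sub _ _ _).symm
  rw [h4]
  simp only [h1, Finset.smul_sum, smul_smul]
  rw [Finset.sum_comm]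
  refine Finset.sum_congr rfl fun l _ => ?_
  rw [← Finset.sum_smul]
  congr 1
  simp only [Cn, Matrix.sum_apply, Matrix.smul_apply, smul_eq_mul]

lemma Km_eq (c : Fin d → Fin d → Fin d → ℂ) (i j : Fin d) :
    Km c i j = (Matrix.of (c i) * Matrix.of (c j)).trace := by
  simp only [Km, Matrix.of_apply, Matrix.trace, Matrix.diag_apply, Matrix.mul_apply]

lemma Km_Cn {a : Matrix (Fin d) (Fin d) ℂ} (ha : IsUnit a.det) (c : Fin d → Fin d → Fin d → ℂ) :
    Km (Cn a c) = a * Km c * aᵀ := by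
  ext i j
  rw [Km_eq]
  change (Cn a c i * Cn a c j).trace = _
  have h1 : ∀ p q, (a * Matrix.of (c p) * a⁻¹ * (a * Matrix.of (c q) * a⁻¹)).trace = Km c p q := by
    intro p q
    rw [Km_eq]
    have h : a * Matrix.of (c p) * a⁻¹ * (a * Matrix.of (c q) * a⁻¹) =
        a * (Matrix.of (c p) * Matrix.of (c q)) * a⁻¹ := by
      rw [show a * Matrix.of (c p) * a⁻¹ * (a * Matrix.of (c q) * a⁻¹) =
        a * Matrix.of (c p) * (a⁻¹ * a) * (Matrix.of (c q) * a⁻¹) by
        simp only [Matrix.mul_assoc], Matrix.nonsing_inv_mul _ ha, Matrix.mul_one]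
      simp only [Matrix.mul_assoc]
    rw [h, Matrix.trace_mul_comm, ← Matrix.mul_assoc, Matrix.nonsing_inv_mul _ ha, Matrix.one_mul]
  simp only [Cn, Finset.sum_mul, Finset.mul_sum, Matrix.smul_mul, Matrix.mul_smul,
    Matrix.trace_sum, Matrix.trace_smul, h1, smul_eq_mul, Matrix.mul_apply,
    Matrix.transpose_apply]
  refine Finset.sum_congr rfl fun q _ => Finset.sum_congr rfl fun p _ => ?_
  ring

/-- the structure constants from the trace form -/
lemma Cn_eq (y : Fin d → Matrix n n ℂ) (c : Fin d → Matrix (Fin d) (Fin d) ℂ)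
    (h : ∀ i j, y i * y j - y j * y i = ∑ l, c i j l • y l) (hG : IsUnit (Gm y).det) (i : Fin d) :
    c i = Matrix.of (fun j m => ((y i * y j - y j * y i) * y m).trace) * (Gm y)⁻¹ := by
  have h1 : Matrix.of (fun j m => ((y i * y j - y j * y i) * y m).trace) = c i * Gm y := by
    ext j m
    rw [Matrix.of_apply, h, Finset.sum_mul, Matrix.trace_sum, Matrix.mul_apply]
    refine Finset.sum_congr rfl fun l _ => ?_
    rw [Matrix.smul_mul, Matrix.trace_smul]
    rfl
  rw [h1, Matrix.mul_assoc, Matrix.mul_nonsing_inv _ hG, Matrix.mul_one]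

lemma tmat {f : ℕ → Matrix (Fin d) (Fin d) ℂ} {F : Matrix (Fin d) (Fin d) ℂ}
    (h : ∀ i j, Tendsto (fun k => f k i j) atTop (𝓝 (F i j))) : Tendsto f atTop (𝓝 F) :=
  tendsto_pi_nhds.2 fun i => tendsto_pi_nhds.2 fun j => h i j

theorem lim_core (x : Fin d → Matrix n n ℂ) (hB : (Gm x).det ≠ 0)
    (c : Fin d → Fin d → Fin d → ℂ) (hc : ∀ i j, x i * x j - x j * x i = ∑ l, c i j l • x l)
    (hK : (Km c).det ≠ 0) (g : ℕ → Matrix n n ℂ) (a : ℕ → Matrix (Fin d) (Fin d) ℂ)
    (u : Fin d → Matrix n n ℂ) (hg : ∀ k, IsUnit (g k).det) (ha : ∀ k, ‖(a k).det‖ = 1)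
    (hlim : ∀ i, Tendsto (fun k => ∑ j, a k i j • (g k * x j * (g k)⁻¹)) atTop (𝓝 (u i))) :
    (Gm u).det ≠ 0 ∧ ∃ Cu : Fin d → Fin d → Fin d → ℂ,
      (∀ i j, u i * u j - u j * u i = ∑ l, Cu i j l • u l) ∧ (Km Cu).det ≠ 0 := by
  let y : ℕ → Fin d → Matrix n n ℂ := fun k => cb (a k) (fun j => g k * x j * (g k)⁻¹)
  have hy : ∀ i, Tendsto (fun k => y k i) atTop (𝓝 (u i)) := hlim
  have hau : ∀ k, IsUnit (a k).det := fun k => by
    rw [isUnit_iff_ne_zero]
    intro h
    have := ha k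
    rw [h, norm_zero] at this
    exact zero_ne_one this
  -- the trace form
  have hG : ∀ k, Gm (y k) = a k * Gm x * (a k)ᵀ := fun k => by
    rw [Gm_cb, Gm_conj (hg k)]
  have hGn : ∀ k, ‖(Gm (y k)).det‖ = ‖(Gm x).det‖ := fun k => by
    rw [hG, Matrix.det_mul, Matrix.det_mul, Matrix.det_transpose, norm_mul, norm_mul, ha]
    ring
  have hGt : Tendsto (fun k => Gm (y k)) atTop (𝓝 (Gm u)) := by
    refine tmat fun i j => ?_
    have h1 : Tendsto (fun k => y k i * y k j) atTop (𝓝 (u i * u j)) := (hy i).mul (hy j)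
    exact ((continuous_id.matrix_trace).tendsto _).comp h1
  have hGd : Tendsto (fun k => (Gm (y k)).det) atTop (𝓝 (Gm u).det) :=
    ((continuous_id.matrix_det).tendsto _).comp hGt
  have hGu : (Gm u).det ≠ 0 := by
    have h1 : Tendsto (fun k => ‖(Gm (y k)).det‖) atTop (𝓝 ‖(Gm u).det‖) := hGd.norm
    simp only [hGn] at h1
    have h2 := tendsto_nhds_unique h1 tendsto_const_nhds
    intro h3
    rw [h3, norm_zero] at h2
    exact hB (norm_eq_zero.1 h2.symm)
  refine ⟨hGu, ?_⟩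
  have hGi : Tendsto (fun k => (Gm (y k))⁻¹) atTop (𝓝 (Gm u)⁻¹) := by
    simp only [Matrix.inv_def, Ring.inverse_eq_inv']
    exact (hGd.inv₀ hGu).smul (((continuous_id.matrix_adjugate).tendsto _).comp hGt)
  have hl : ∀ k i j, y k i * y k j - y k j * y k i = ∑ l, Cn (a k) c i j l • y k l :=
    fun k i j => cb_lie (hau k) _ c (fun i j => conj_lie (hg k) x c hc i j) i j
  have hCe : ∀ k i, Cn (a k) c i =
      Matrix.of (fun j m => ((y k i * y k j - y k j * y k i) * y k m).trace) * (Gm (y k))⁻¹ := by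
    intro k i
    refine Cn_eq (y k) (Cn (a k) c) (hl k) ?_ i
    rw [isUnit_iff_ne_zero, ← norm_ne_zero_iff, hGn]
    exact norm_ne_zero_iff.2 hB
  let Cu : Fin d → Matrix (Fin d) (Fin d) ℂ := fun i =>
    Matrix.of (fun j m => ((u i * u j - u j * u i) * u m).trace) * (Gm u)⁻¹
  have hCt : ∀ i, Tendsto (fun k => Cn (a k) c i) atTop (𝓝 (Cu i)) := by
    intro i
    simp only [hCe]
    refine Tendsto.mul ?_ hGi
    refine tmat fun j m => ?_
    have h1 : Tendsto (fun k => (y k i * y k j - y k j * y k i) * y k m) atTop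
        (𝓝 ((u i * u j - u j * u i) * u m)) :=
      (((hy i).mul (hy j)).sub ((hy j).mul (hy i))).mul (hy m)
    exact ((continuous_id.matrix_trace).tendsto _).comp h1
  refine ⟨fun i j l => Cu i j l, ?_, ?_⟩
  · intro i j
    have h1 : Tendsto (fun k => y k i * y k j - y k j * y k i) atTop
        (𝓝 (u i * u j - u j * u i)) := ((hy i).mul (hy j)).sub ((hy j).mul (hy i))
    have h2 : Tendsto (fun k => ∑ l, Cn (a k) c i j l • y k l) atTop
        (𝓝 (∑ l, Cu i j l • u l)) := by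
      refine tendsto_finset_sum _ fun l _ => Tendsto.smul ?_ (hy l)
      exact (tendsto_pi_nhds.1 ((tendsto_pi_nhds.1 (hCt i)) j)) l
    simp only [hl] at h1
    exact tendsto_nhds_unique h1 h2
  · have h1 : ∀ k, ‖(Km (Cn (a k) c)).det‖ = ‖(Km c).det‖ := fun k => by
      have h2 := Km_Cn (hau k) c
      rw [h2, Matrix.det_mul, Matrix.det_mul, Matrix.det_transpose, norm_mul, norm_mul, ha]
      ring
    have h2 : Tendsto (fun k => Km (Cn (a k) c)) atTop (𝓝 (Km fun i j l => Cu i j l)) := by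
      refine tmat fun i j => ?_
      have h3 : ∀ i l m, Tendsto (fun k => Cn (a k) c i l m) atTop (𝓝 (Cu i l m)) := fun i l m =>
        (tendsto_pi_nhds.1 ((tendsto_pi_nhds.1 (hCt i)) l)) m
      change Tendsto (fun k => ∑ l, ∑ m, Cn (a k) c i l m * Cn (a k) c j m l) atTop
        (𝓝 (∑ l, ∑ m, Cu i l m * Cu j m l))
      exact tendsto_finset_sum _ fun l _ => tendsto_finset_sum _ fun m _ =>
        (h3 i l m).mul (h3 j m l)
    have h4 : Tendsto (fun k => (Km (Cn (a k) c)).det) atTop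
        (𝓝 (Km fun i j l => Cu i j l).det) :=
      ((continuous_id.matrix_det).tendsto _).comp h2
    have h5 := h4.norm
    simp only [h1] at h5
    have h6 := tendsto_nhds_unique h5 tendsto_const_nhds
    intro h7
    rw [h7, norm_zero] at h6
    exact hK (norm_eq_zero.1 h6.symm)

end Pool.Agent.E8helper41.TW
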