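import Pool.Agent.E8helper1.TW.Stm
import Pool.Agent.E8helper41.TW.Kil
import Pool.Agent.E8helper41.TW.Lim

/-! The pieces KIL1 and LIM. -/

set_option autoImplicit false

namespace Pool.Agent.E8helper41.TW

open Matrix Module Filter Topology
open Pool.Agent.E8helper1.TW

/-- **Piece KIL1** -/
theorem t_KIL1 : S_KIL1 := by
  intro n _ _ d x hx hS c hc
  exact kil1 d x hx hS.lie hS.noab c hc

/-- **Piece LIM** -/
theorem t_LIM (h1 : S_LIM1) (hk1 : S_KIL1) (hk2 : S_KIL2) (h2 : S_LIM2) : S_LIM := by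
  intro n _ _ C hC d x hxC hx hS
  have hB : (Gm x).det ≠ 0 := by
    intro h0
    obtain ⟨v, hv, hv0⟩ := Matrix.exists_mulVec_eq_zero_iff.2 h0
    apply hv
    have hu : ∑ j, v j • x j ∈ Submodule.span ℂ (Set.range x) :=
      Submodule.sum_mem _ fun j _ => Submodule.smul_mem _ _ (Submodule.subset_span ⟨j, rfl⟩)
    have hz : ∀ w ∈ Submodule.span ℂ (Set.range x), ((∑ j, v j • x j) * w).trace = 0 := by
      intro w hw
      induction hw using Submodule.span_induction with
      | mem w hw =>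
        obtain ⟨i, rfl⟩ := hw
        have h3 := congrFun hv0 i
        simp only [Matrix.mulVec, dotProduct, Gm, Matrix.of_apply, Pi.zero_apply] at h3
        rw [Matrix.trace_mul_comm, Finset.mul_sum, Matrix.trace_sum, ← h3]
        refine Finset.sum_congr rfl fun j _ => ?_
        rw [Matrix.mul_smul, Matrix.trace_smul, smul_eq_mul, mul_comm]
      | zero => rw [mul_zero, Matrix.trace_zero]
      | add a b _ _ ha hb => rw [mul_add, Matrix.trace_add, ha, hb, add_zero]
      | smul r a _ ha => rw [Matrix.mul_smul, Matrix.trace_smul, ha, smul_zero]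
    have h4 := hS.nondeg _ hu hz
    funext j
    exact Fintype.linearIndependent_iff.1 hx v h4 j
  obtain ⟨D, hD⟩ := h1 n C hC d x hxC hB
  have hc' : ∀ i j, ∃ c : Fin d → ℂ, x i * x j - x j * x i = ∑ l, c l • x l := by
    intro i j
    have h3 := hS.lie (x i) (Submodule.subset_span ⟨i, rfl⟩) (x j) (Submodule.subset_span ⟨j, rfl⟩)
    obtain ⟨c, hc⟩ := (Submodule.mem_span_range_iff_exists_fun ℂ).1 h3
    exact ⟨c, hc.symm⟩
  choose c hc using hc'
  have hK := hk1 n d x hx hS c hc
  obtain ⟨hGu, Cu, hCu, hKu⟩ := lim_core x hB c hc hK D.g D.a D.u D.g_unit D.a_det D.lim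
  have hlin : LinearIndependent ℂ D.u := by
    rw [Fintype.linearIndependent_iff]
    intro r hr j
    have h3 := congrArg (fun M : Matrix n n ℂ => (M * (D.u j)ᴴ).trace) hr
    simp only [Finset.sum_mul, Matrix.smul_mul, Matrix.trace_sum, Matrix.trace_smul, D.orth,
      smul_eq_mul, mul_ite, mul_zero, Finset.sum_ite_eq', Finset.mem_univ, if_true,
      Matrix.zero_mul, Matrix.trace_zero] at h3
    rcases mul_eq_zero.1 h3 with h4 | h4
    · exact h4
    · exact absurd (Complex.ofReal_eq_zero.1 h4) D.lam_pos.ne'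
  have hlie : ∀ i j, D.u i * D.u j - D.u j * D.u i ∈ Submodule.span ℂ (Set.range D.u) := by
    intro i j
    rw [hCu]
    exact Submodule.sum_mem _ fun l _ => Submodule.smul_mem _ _ (Submodule.subset_span ⟨l, rfl⟩)
  have hstar := h2 n d D.u D.lam D.lam_pos D.orth hD hlie hGu (fun J hJ hJ1 hJ2 =>
    hk2 n d D.u hlin Cu hCu hKu J hJ hJ1 hJ2)
  exact ⟨{ D with lie := hlie, star := hstar }⟩

end Pool.Agent.E8helper41.TW
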